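import Pool.Agent.helper46.AX.SpecT

set_option autoImplicit false

namespace Pool.Agent.AX

open Matrix Polynomial Pool.Agent.GO Pool.Agent.AR Pool.Agent.RG Pool.Agent.HZ Pool.Agent.DS
  MeasureTheory

universe u v

theorem TIN_not {Γ : Type} [Group Γ] {Ω : Type v} [Field Ω] (ρ : Γ →* Matrix (Fin 2) (Fin 2) Ω)
    (h : Irred (fun a : adKer ρ => ρ a)) : False := by
  obtain ⟨_, h⟩ := h
  have h1 := h (Submodule.span Ω {(Pi.single 0 1 : Fin 2 → Ω)}) (by
    rintro ⟨g, c, hc⟩ u hu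
    change ρ g *ᵥ u ∈ _
    rw [hc, Matrix.smul_mulVec, Matrix.one_mulVec]
    exact Submodule.smul_mem _ c hu)
  rcases h1 with h1 | h1
  · rw [Submodule.span_singleton_eq_bot] at h1
    have h2 := congrFun h1 0
    simp at h2
  · have h2 : (Pi.single 1 1 : Fin 2 → Ω) ∈ Submodule.span Ω {(Pi.single 0 1 : Fin 2 → Ω)} := by
      rw [h1]
      trivial
    rw [Submodule.mem_span_singleton] at h2
    obtain ⟨c, hc⟩ := h2
    have h3 := congrFun hc 1
    simp at h3

theorem TIN : TIN_stmt.{v} := by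
  intro Γ _ _ _ _ Ω _ _ _ _ _ ρ hρ hirr Z hZ
  have hSI : SI ρ := SI_of_open ρ hρ hirr
  have hinf : Infinite (Z ⧸ (adKer ρ).subgroupOf Z) := by
    rw [← not_finite_iff_infinite]
    intro hfin
    have h1 : (adKer ρ).relIndex Z ≠ 0 := by
      rw [Subgroup.relIndex]
      exact Subgroup.index_ne_zero_of_finite
    have h2 : (adKer ρ).relIndex (Z ⊔ adKer ρ) ≠ 0 := by
      rw [Subgroup.relIndex_sup_right]
      exact h1
    have h3 := Subgroup.relIndex_mul_index (le_sup_right : adKer ρ ≤ Z ⊔ adKer ρ)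
    have h4 : (adKer ρ).FiniteIndex := ⟨by
      rw [← h3]
      exact mul_ne_zero h2 hZ.index_ne_zero⟩
    exact TIN_not ρ (hSI (adKer ρ) h4)
  let e := Infinite.natEmbedding (Z ⧸ (adKer ρ).subgroupOf Z)
  refine ⟨fun a => ((e a).out : Z), fun a => ((e a).out : Z).2, ?_⟩
  intro a b hab c hc
  apply hab
  apply e.injective
  have h1 : (((e b).out : Z) : Γ)⁻¹ * (((e a).out : Z) : Γ) ∈ adKer ρ := by
    refine ⟨c, ?_⟩
    rw [map_mul, hc, Matrix.mul_smul, hom_inv_mul']
  have h2 : (QuotientGroup.mk ((e b).out : Z) : Z ⧸ (adKer ρ).subgroupOf Z) = QuotientGroup.mk ((e a).out : Z) := by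
    rw [QuotientGroup.eq, Subgroup.mem_subgroupOf]
    exact h1
  rw [QuotientGroup.out_eq', QuotientGroup.out_eq'] at h2
  exact h2.symm

end Pool.Agent.AX
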